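import Pool.Agent.helper47.T1.SpecE1

/-!
# MP_07c750, project T1, row QB5: the local density `r bk` with an error term
-/

set_option autoImplicit false

open scoped MatrixGroups ContDiff Topology UpperHalfPlane ComplexConjugate
open UpperHalfPlane MeasureTheory Filter Set

namespace Pool.Agent.T1

open Pool.Agent.RS Pool.Agent.MS

noncomputable section

/-- the pointwise bound; `y ^ 4 = 1 + v ^ 2` -/
theorem QB5_pt (a K2 m q y v x z : ℝ) (ha : 1 ≤ a) (hK2 : 1 ≤ K2) (hm : 0 ≤ m) (hq : 0 < q) (hq1 : q ≤ 1) (hy : 1 ≤ y) (hy4 : y ^ 4 = 1 + v ^ 2)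
    (hx0 : 0 ≤ x) (hz0 : 0 ≤ z) (hx : x ^ 2 ≤ a ^ 2 * m ^ 2 * (1 + v ^ 2)⁻¹) (hz : z ^ 2 ≤ a ^ 2 * m ^ 2 * (1 + v ^ 2)⁻¹)
    (hxz : q ^ 2 ≤ |v| → |v| ≤ (q ^ 2)⁻¹ → |x - z| ≤ K2 * m * q ^ 2) :
    |x ^ 2 - z ^ 2| ≤ Set.indicator (Set.Icc (-q ^ 2) (q ^ 2)) (fun _ => a ^ 2 * m ^ 2) v + (a ^ 2 + 4 * a * K2) * m ^ 2 * q * (y ^ 3)⁻¹ := by
  have hy0 : 0 < y := by linarith
  have hq2 : 0 < q ^ 2 := by positivity
  rw [← hy4] at hx hz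
  have hA0 : 0 ≤ a ^ 2 * m ^ 2 * (y ^ 4)⁻¹ := by positivity
  have h1 : |x ^ 2 - z ^ 2| ≤ a ^ 2 * m ^ 2 * (y ^ 4)⁻¹ := by
    rw [abs_le]
    constructor
    · have := sq_nonneg x
      linarith
    · have := sq_nonneg z
      linarith
  have h2 : 0 ≤ (a ^ 2 + 4 * a * K2) * m ^ 2 * q * (y ^ 3)⁻¹ := by positivity
  have h3 : 0 ≤ Set.indicator (Set.Icc (-q ^ 2) (q ^ 2)) (fun _ => a ^ 2 * m ^ 2) v := Set.indicator_nonneg (fun _ _ => by positivity) v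
  by_cases hc1 : |v| ≤ q ^ 2
  · have h4 : v ∈ Set.Icc (-q ^ 2) (q ^ 2) := abs_le.1 hc1
    rw [Set.indicator_of_mem h4]
    have h5 : (y ^ 4)⁻¹ ≤ 1 := inv_le_one_of_one_le₀ (one_le_pow₀ hy)
    have h6 : a ^ 2 * m ^ 2 * (y ^ 4)⁻¹ ≤ a ^ 2 * m ^ 2 * 1 := mul_le_mul_of_nonneg_left h5 (by positivity)
    linarith
  · rw [not_le] at hc1
    by_cases hc2 : |v| ≤ (q ^ 2)⁻¹
    · -- the middle range
      have h4 := hxz hc1.le hc2
      have hxa : x ≤ a * m * (y ^ 2)⁻¹ := by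
        have h5 : x ^ 2 ≤ (a * m * (y ^ 2)⁻¹) ^ 2 := by
          have h6 : (a * m * (y ^ 2)⁻¹) ^ 2 = a ^ 2 * m ^ 2 * (y ^ 4)⁻¹ := by
            rw [mul_pow, mul_pow, inv_pow, ← pow_mul]
          rw [h6]
          exact hx
        exact le_of_sq_le_sq h5 (by positivity)
      have hza : z ≤ a * m * (y ^ 2)⁻¹ := by
        have h5 : z ^ 2 ≤ (a * m * (y ^ 2)⁻¹) ^ 2 := by
          have h6 : (a * m * (y ^ 2)⁻¹) ^ 2 = a ^ 2 * m ^ 2 * (y ^ 4)⁻¹ := by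
            rw [mul_pow, mul_pow, inv_pow, ← pow_mul]
          rw [h6]
          exact hz
        exact le_of_sq_le_sq h5 (by positivity)
      have h5 : |x ^ 2 - z ^ 2| = |x - z| * (x + z) := by
        rw [show x ^ 2 - z ^ 2 = (x - z) * (x + z) by ring, abs_mul, abs_of_nonneg (by linarith : 0 ≤ x + z)]
      have h6 : |x - z| * (x + z) ≤ K2 * m * q ^ 2 * (2 * (a * m * (y ^ 2)⁻¹)) := by
        refine mul_le_mul h4 (by linarith) (by linarith) (by positivity)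
      -- `q y ≤ 2`
      have h7 : q * y ≤ 2 := by
        have h8 : (q * y) ^ 4 ≤ 2 ^ 4 := by
          have h9 : v ^ 2 ≤ ((q ^ 2)⁻¹) ^ 2 := by
            rw [← sq_abs v]
            exact pow_le_pow_left₀ (abs_nonneg _) hc2 2
          have h10 : q ^ 4 * v ^ 2 ≤ 1 := by
            have h11 : q ^ 4 * v ^ 2 ≤ q ^ 4 * ((q ^ 2)⁻¹) ^ 2 := mul_le_mul_of_nonneg_left h9 (by positivity)
            have h12 : q ^ 4 * ((q ^ 2)⁻¹) ^ 2 = 1 := by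
              field_simp
            linarith
          have h13 : q ^ 4 ≤ 1 := pow_le_one₀ hq.le hq1
          have h14 : (q * y) ^ 4 = q ^ 4 + q ^ 4 * v ^ 2 := by
            rw [mul_pow, hy4]
            ring
          rw [h14]
          linarith
        exact le_of_pow_le_pow_left₀ (by norm_num) (by norm_num) h8
      have h15 : K2 * m * q ^ 2 * (2 * (a * m * (y ^ 2)⁻¹)) = (2 * a * K2 * m ^ 2 * q * (y ^ 3)⁻¹) * (q * y) := by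
        field_simp
      have h16 : (2 * a * K2 * m ^ 2 * q * (y ^ 3)⁻¹) * (q * y) ≤ (2 * a * K2 * m ^ 2 * q * (y ^ 3)⁻¹) * 2 := mul_le_mul_of_nonneg_left h7 (by positivity)
      have h17 : (a ^ 2 + 4 * a * K2) * m ^ 2 * q * (y ^ 3)⁻¹ = a ^ 2 * m ^ 2 * q * (y ^ 3)⁻¹ + (2 * a * K2 * m ^ 2 * q * (y ^ 3)⁻¹) * 2 := by ring
      have h18 : 0 ≤ a ^ 2 * m ^ 2 * q * (y ^ 3)⁻¹ := by positivity
      rw [h5]
      linarith
    · -- far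
      rw [not_le] at hc2
      have h7 : 1 ≤ q * y := by
        have h8 : 1 ^ 4 ≤ (q * y) ^ 4 := by
          have h9 : ((q ^ 2)⁻¹) ^ 2 ≤ v ^ 2 := by
            rw [← sq_abs v]
            exact pow_le_pow_left₀ (by positivity) hc2.le 2
          have h11 : q ^ 4 * ((q ^ 2)⁻¹) ^ 2 ≤ q ^ 4 * v ^ 2 := mul_le_mul_of_nonneg_left h9 (by positivity)
          have h12 : q ^ 4 * ((q ^ 2)⁻¹) ^ 2 = 1 := by
            field_simp
          have h14 : (q * y) ^ 4 = q ^ 4 + q ^ 4 * v ^ 2 := by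
            rw [mul_pow, hy4]
            ring
          rw [h14, one_pow]
          have : 0 ≤ q ^ 4 := by positivity
          linarith
        exact le_of_pow_le_pow_left₀ (by norm_num) (by positivity) h8
      have h15 : a ^ 2 * m ^ 2 * (y ^ 4)⁻¹ * (q * y) = a ^ 2 * m ^ 2 * q * (y ^ 3)⁻¹ := by
        field_simp
      have h16 : a ^ 2 * m ^ 2 * (y ^ 4)⁻¹ * 1 ≤ a ^ 2 * m ^ 2 * (y ^ 4)⁻¹ * (q * y) := mul_le_mul_of_nonneg_left h7 hA0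
      have h17 : (a ^ 2 + 4 * a * K2) * m ^ 2 * q * (y ^ 3)⁻¹ = a ^ 2 * m ^ 2 * q * (y ^ 3)⁻¹ + 4 * a * K2 * m ^ 2 * q * (y ^ 3)⁻¹ := by ring
      have h18 : 0 ≤ 4 * a * K2 * m ^ 2 * q * (y ^ 3)⁻¹ := by positivity
      linarith

theorem QB5_int : Integrable (fun v : ℝ => (((1 + v ^ 2) ^ (1 / 4 : ℝ)) ^ 3)⁻¹) := by
  have h1 := integrable_rpow_neg_one_add_norm_sq (E := ℝ) (μ := volume) (r := 3 / 2) (by simp; norm_num)
  refine h1.congr (Eventually.of_forall fun v => ?_)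
  have h2 : (0 : ℝ) ≤ 1 + v ^ 2 := by positivity
  show (1 + ‖v‖ ^ 2) ^ (-(3 / 2 : ℝ) / 2) = (((1 + v ^ 2) ^ (1 / 4 : ℝ)) ^ 3)⁻¹
  rw [Real.norm_eq_abs, sq_abs, ← Real.rpow_natCast ((1 + v ^ 2) ^ (1 / 4 : ℝ)) 3, ← Real.rpow_mul h2, ← Real.rpow_neg h2]
  congr 1
  norm_num

theorem QB5_proof (h1 : QB2_stmt) (h2 : QB3_stmt) (h3 : QBT_stmt) (h4 : RS.BK4_stmt) : QB5_stmt := by
  obtain ⟨K2, hK2, H2⟩ := h1
  obtain ⟨K3, hK3, H3⟩ := h2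
  obtain ⟨KT, hKT, HT⟩ := h3
  obtain ⟨a, ha⟩ : ∃ a, a = K3 + KT := ⟨_, rfl⟩
  have ha1 : 1 ≤ a := by linarith
  have haa : a ≤ a ^ 2 := by nlinarith
  obtain ⟨J, hJ⟩ : ∃ J, J = ∫ v : ℝ, (((1 + v ^ 2) ^ (1 / 4 : ℝ)) ^ 3)⁻¹ := ⟨_, rfl⟩
  have hJ0 : 0 ≤ J := by
    rw [hJ]
    exact integral_nonneg fun v => by positivity
  refine ⟨max 625 (max K2 (2 * a ^ 2 + (a ^ 2 + 4 * a * K2) * J)), le_trans (by norm_num) (le_max_left _ _), ?_⟩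
  intro β α M hβ hα r s hr hs
  have hr625 : 625 ≤ r := (le_max_left _ _).trans hr
  have hrK2 : K2 ≤ r := ((le_max_left _ _).trans (le_max_right _ _)).trans hr
  have hr0 : 0 < r := by linarith
  have hr1 : 1 ≤ r := by linarith
  obtain ⟨hC, HT'⟩ := HT β α M hβ hα
  obtain ⟨t1, t2, -, -⟩ := HT' (s - r)
  -- `|s - r| ≤ r / 100`
  have hs100 : |s - r| ≤ r / 100 := by
    refine hs.trans ?_
    obtain ⟨p, hp⟩ : ∃ p, p = r ^ (1 / 4 : ℝ) := ⟨_, rfl⟩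
    have hp0 : 0 < p := by rw [hp]; exact Real.rpow_pos_of_pos hr0 _
    have hp4 : p ^ 4 = r := by
      rw [hp, ← Real.rpow_natCast, ← Real.rpow_mul hr0.le]
      norm_num
    have hp5 : 5 ≤ p := by
      refine le_of_pow_le_pow_left₀ (n := 4) (by norm_num) hp0.le ?_
      rw [hp4]
      norm_num
      exact hr625
    rw [← hp]
    have hp3 : 100 ≤ p ^ 3 := by
      have : (5 : ℝ) ^ 3 ≤ p ^ 3 := pow_le_pow_left₀ (by norm_num) hp5 3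
      norm_num at this
      linarith
    have : p * 100 ≤ p * p ^ 3 := mul_le_mul_of_nonneg_left hp3 hp0.le
    have h5 : p * p ^ 3 = r := by rw [← hp4]; ring
    linarith
  obtain ⟨-, u1, u2, u3, -⟩ := H3 (pr β α) (M ^ 2) hC r s hr1 hs100
  -- the small parameter
  obtain ⟨q, hq⟩ : ∃ q, q = r ^ (-(1 / 8) : ℝ) := ⟨_, rfl⟩
  have hq0 : 0 < q := by rw [hq]; exact Real.rpow_pos_of_pos hr0 _
  have hq1 : q ≤ 1 := by
    rw [hq]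
    exact Real.rpow_le_one_of_one_le_of_nonpos hr1 (by norm_num)
  have hq2 : q ^ 2 = r ^ (-(1 / 4) : ℝ) := by
    rw [hq, ← Real.rpow_natCast, ← Real.rpow_mul hr0.le]
    norm_num
  have hq2i : (q ^ 2)⁻¹ = r ^ (1 / 4 : ℝ) := by
    rw [hq2, Real.rpow_neg hr0.le, inv_inv]
  -- the pointwise bound
  have key : ∀ᵐ v : ℝ, ‖(r * ‖bI (pr β α) r s (r * v)‖) ^ 2 - (|v|⁻¹ * ‖bF (pr β α) (2 / v) (s - r)‖) ^ 2‖ ≤
      Set.indicator (Set.Icc (-q ^ 2) (q ^ 2)) (fun _ => a ^ 2 * (M ^ 2) ^ 2) v + (a ^ 2 + 4 * a * K2) * (M ^ 2) ^ 2 * q * (((1 + v ^ 2) ^ (1 / 4 : ℝ)) ^ 3)⁻¹ := by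
    have hne : ∀ᵐ v : ℝ, v ≠ 0 := by
      rw [ae_iff]
      simp
    filter_upwards [hne] with v hv
    have hv1 : (1 : ℝ) ≤ 1 + v ^ 2 := by have := sq_nonneg v; linarith
    rw [Real.norm_eq_abs]
    refine QB5_pt a K2 (M ^ 2) q ((1 + v ^ 2) ^ (1 / 4 : ℝ)) v _ _ ha1 hK2 (sq_nonneg M) hq0 hq1 (Real.one_le_rpow hv1 (by norm_num)) ?_ (by positivity) (by positivity) ?_ ?_ ?_
    · rw [← Real.rpow_natCast, ← Real.rpow_mul (by linarith)]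
      norm_num
    · refine (u2 v).trans (mul_le_mul_of_nonneg_right (mul_le_mul_of_nonneg_right ?_ (sq_nonneg _)) (by positivity))
      linarith
    · have e1 := t2 v hv
      have e2 : KT * M ^ 4 = KT * (M ^ 2) ^ 2 := by ring
      rw [e2] at e1
      refine e1.trans (mul_le_mul_of_nonneg_right (mul_le_mul_of_nonneg_right ?_ (sq_nonneg _)) (by positivity))
      linarith
    · intro e1 e2
      rw [hq2] at e1
      rw [hq2i] at e2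
      rw [hq2]
      exact H2 (pr β α) (M ^ 2) hC r s v hrK2 hs e1 e2
  have hD1 : Integrable (Set.indicator (Set.Icc (-q ^ 2) (q ^ 2)) (fun _ : ℝ => a ^ 2 * (M ^ 2) ^ 2)) := by
    rw [integrable_indicator_iff measurableSet_Icc]
    exact integrableOn_const (isCompact_Icc.measure_lt_top.ne)
  have hD2 : Integrable (fun v : ℝ => (a ^ 2 + 4 * a * K2) * (M ^ 2) ^ 2 * q * (((1 + v ^ 2) ^ (1 / 4 : ℝ)) ^ 3)⁻¹) := QB5_int.const_mul _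
  have hint := norm_integral_le_of_norm_le (hD1.add hD2) key
  have e3 : ∫ v : ℝ, ((Set.indicator (Set.Icc (-q ^ 2) (q ^ 2)) (fun _ : ℝ => a ^ 2 * (M ^ 2) ^ 2) + fun v : ℝ => (a ^ 2 + 4 * a * K2) * (M ^ 2) ^ 2 * q * (((1 + v ^ 2) ^ (1 / 4 : ℝ)) ^ 3)⁻¹ : ℝ → ℝ)) v =
      2 * q ^ 2 * (a ^ 2 * (M ^ 2) ^ 2) + (a ^ 2 + 4 * a * K2) * (M ^ 2) ^ 2 * q * J := by
    rw [integral_add' hD1 hD2, integral_const_mul, ← hJ, integral_indicator measurableSet_Icc, setIntegral_const, Real.volume_real_Icc_of_le (by linarith [sq_nonneg q]), smul_eq_mul]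
    ring
  rw [e3] at hint
  rw [integral_sub u1 t1, Real.norm_eq_abs] at hint
  -- the limit
  have e4 := h4 α β hα.sb hβ.sb (s - r)
  have e5 : ∫ v : ℝ, (|v|⁻¹ * ‖bF (pr β α) (2 / v) (s - r)‖) ^ 2 = ∫ v : ℝ, (v⁻¹) ^ 2 * ‖bF (pr β α) (2 / v) (s - r)‖ ^ 2 := by
    refine integral_congr_ae (Eventually.of_forall fun v => ?_)
    show (|v|⁻¹ * ‖bF (pr β α) (2 / v) (s - r)‖) ^ 2 = (v⁻¹) ^ 2 * ‖bF (pr β α) (2 / v) (s - r)‖ ^ 2
    rw [mul_pow, inv_pow, sq_abs, inv_pow]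
  rw [e5] at hint
  rw [u3, ← e4, ← mul_sub, abs_mul, abs_of_pos (by positivity : (0 : ℝ) < 1 / Real.pi)]
  have hpi : 1 / Real.pi ≤ 1 := by
    rw [div_le_one Real.pi_pos]
    linarith [Real.pi_gt_three]
  have hB0 : 0 ≤ |(∫ v : ℝ, (r * ‖bI (pr β α) r s (r * v)‖) ^ 2) - ∫ v : ℝ, (v⁻¹) ^ 2 * ‖bF (pr β α) (2 / v) (s - r)‖ ^ 2| := abs_nonneg _
  have e6 : 1 / Real.pi * |(∫ v : ℝ, (r * ‖bI (pr β α) r s (r * v)‖) ^ 2) - ∫ v : ℝ, (v⁻¹) ^ 2 * ‖bF (pr β α) (2 / v) (s - r)‖ ^ 2| ≤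
      1 * |(∫ v : ℝ, (r * ‖bI (pr β α) r s (r * v)‖) ^ 2) - ∫ v : ℝ, (v⁻¹) ^ 2 * ‖bF (pr β α) (2 / v) (s - r)‖ ^ 2| := mul_le_mul_of_nonneg_right hpi hB0
  rw [one_mul] at e6
  refine e6.trans (hint.trans ?_)
  rw [← hq]
  have hM4 : 0 ≤ M ^ 4 := by positivity
  have e7 : 2 * q ^ 2 * (a ^ 2 * (M ^ 2) ^ 2) ≤ 2 * a ^ 2 * (M ^ 4 * q) := by
    have e8 : q ^ 2 ≤ q := by nlinarith
    have e9 : (2 * a ^ 2 * M ^ 4) * q ^ 2 ≤ (2 * a ^ 2 * M ^ 4) * q := mul_le_mul_of_nonneg_left e8 (by positivity)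
    have e10 : 2 * q ^ 2 * (a ^ 2 * (M ^ 2) ^ 2) = (2 * a ^ 2 * M ^ 4) * q ^ 2 := by ring
    have e11 : 2 * a ^ 2 * (M ^ 4 * q) = (2 * a ^ 2 * M ^ 4) * q := by ring
    linarith
  have e12 : (a ^ 2 + 4 * a * K2) * (M ^ 2) ^ 2 * q * J = (a ^ 2 + 4 * a * K2) * J * (M ^ 4 * q) := by ring
  have e13 : 2 * a ^ 2 + (a ^ 2 + 4 * a * K2) * J ≤ max 625 (max K2 (2 * a ^ 2 + (a ^ 2 + 4 * a * K2) * J)) := (le_max_right _ _).trans (le_max_right _ _)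
  have e14 := mul_le_mul_of_nonneg_right e13 (show 0 ≤ M ^ 4 * q by positivity)
  have e15 : (2 * a ^ 2 + (a ^ 2 + 4 * a * K2) * J) * (M ^ 4 * q) = 2 * a ^ 2 * (M ^ 4 * q) + (a ^ 2 + 4 * a * K2) * J * (M ^ 4 * q) := by ring
  rw [e12, mul_assoc (max 625 (max K2 (2 * a ^ 2 + (a ^ 2 + 4 * a * K2) * J)))]
  linarith

end

end Pool.Agent.T1
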