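import Pool.Agent.helper52.T1.SpecF
import Pool.Agent.helper47.T1.SpecE4
import Pool.Agent.helper83.IR.HMG
import Pool.Agent.helper27.MS.MS2

/-! # Row t1:UPE (MP_07c750_an): the effective main estimate in the form needed for the labels -/

set_option autoImplicit false

open scoped MatrixGroups ContDiff Topology UpperHalfPlane ComplexConjugate
open UpperHalfPlane MeasureTheory Filter Set

namespace Pool.Agent.T1

open Pool.Agent.RS Pool.Agent.MS Pool.Agent.HV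

noncomputable section

theorem UPE_thr (A a : ℝ) (ha : 0 < a) : ∃ R : ℝ, 1 ≤ R ∧ ∀ r : ℝ, R ≤ r → A ≤ r ^ a := by
  have h := (tendsto_rpow_atTop ha).eventually (eventually_ge_atTop A)
  obtain ⟨R, hR⟩ := Filter.eventually_atTop.1 h
  exact ⟨max R 1, le_max_right _ _, fun r hr => hR r (le_trans (le_max_left _ _) hr)⟩

/-- the time `s` -/
theorem UPE_s (A B : ℝ) (hA : 0 < A) (hB : 0 < B) : ∃ s : ℝ, 0 ≤ s ∧ Real.exp (-s) ≤ A ∧ Real.exp (-s) ≤ B := by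
  have h2 := (eventually_ge_atTop (0 : ℝ)).and ((Real.tendsto_exp_neg_atTop_nhds_zero.eventually_le_const hA).and
    (Real.tendsto_exp_neg_atTop_nhds_zero.eventually_le_const hB))
  obtain ⟨s, hs⟩ := h2.exists
  exact ⟨s, hs.1, hs.2.1, hs.2.2⟩

/-- Row UPE. -/
theorem UPE_proof (hQPV : QPV_stmt) (hLCK : IR.LCK_stmt) (hGLC : RS.GLC_stmt) (hSTB : MS.STB_stmt) (hCV1 : RS.CV1_stmt)
    (hFL0 : RS.FL0_stmt) (hGFD : RS.GFD_stmt) (hGBD : RS.GBD_stmt) : UPE_stmt := by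
  intro β α hβ hα
  obtain ⟨κ, hκ0, hκ8, hQ⟩ := hQPV β α hβ hα
  obtain ⟨-, -, -, -, hmono, -⟩ := hSTB
  have hα4 : BA (1 / 4) α := (hmono (1 / 8) (1 / 4) α (by norm_num)).2.1 hα
  have hTB : TB (1 / 4) (pc β α) := (hCV1.2.2 (1 / 4) α β hα4.1 hβ.1).1
  have hnM : ∀ s t, nM (s + t) = nM s * nM t := hGLC.2.2.2.2.2.2.2.2.2.2.2.1
  refine ⟨min (κ / 2) (1 / 100), lt_min (by linarith) (by norm_num), min_le_right _ _, ?_⟩
  have hw0 : 0 < min (κ / 2) (1 / 100) := lt_min (by linarith) (by norm_num)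
  have hwκ : min (κ / 2) (1 / 100) ≤ κ / 2 := min_le_left _ _
  have hw1 : min (κ / 2) (1 / 100) ≤ 1 / 100 := min_le_right _ _
  generalize min (κ / 2) (1 / 100) = w at hw0 hwκ hw1 ⊢
  intro Γ F hΓ hF ε C3 hε hC3
  obtain ⟨K, hK1, hQ⟩ := hQ Γ F hΓ hF
  have hδ0 : 0 < min (ε / 20) (1 / 100) := lt_min (by linarith) (by norm_num)
  have hδε : min (ε / 20) (1 / 100) ≤ ε / 20 := min_le_left _ _
  have hδ1 : min (ε / 20) (1 / 100) ≤ 1 / 100 := min_le_right _ _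
  generalize min (ε / 20) (1 / 100) = δ at hδ0 hδε hδ1
  have hK0 : 0 < K := by linarith
  have hC30 : 0 < C3 := by linarith
  refine ⟨δ ^ 2 / 128, max (8 * K * C3 / δ) 100, by positivity, ?_⟩
  intro N0 hN0
  have hNa : 8 * K * C3 / δ ≤ N0 := (le_max_left _ _).trans hN0
  have hNb : (100 : ℝ) ≤ N0 := (le_max_right _ _).trans hN0
  have hN00 : (0 : ℝ) < N0 := by linarith
  have hN01 : (1 : ℝ) ≤ N0 := by linarith
  rw [div_le_iff₀ hδ0] at hNa
  obtain ⟨s, hs0, hs1, hs2⟩ := UPE_s (δ / (K * C3)) (1 / (25 * N0)) (by positivity) (by positivity)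
  obtain ⟨R1, hR11, hR1⟩ := UPE_thr (1 / δ) κ hκ0
  obtain ⟨R2, hR21, hR2⟩ := UPE_thr (K * C3 / δ) w hw0
  obtain ⟨R3, hR31, hR3⟩ := UPE_thr 100 (1 / 4 - 1 / 100) (by norm_num)
  obtain ⟨R4, hR41, hR4⟩ := UPE_thr 2 (1 / 20) (by norm_num)
  refine ⟨max K (max R1 (max R2 (max R3 (max R4 (Real.exp (s / w)))))), hK1.trans (le_max_left _ _), ?_⟩
  intro r M φ hr hM hMr hφ hnφ Ψ Ψa Ψn Ψl Ψ' Ψa' Ψn' Ψl' hSF hSF' hΨ hΨ' hn hl hn' hl' hLFC t ht1 ht2
  have hrK : K ≤ r := (le_max_left _ _).trans hr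
  have hr2 := (le_max_right _ _).trans hr
  have hrR1 : R1 ≤ r := (le_max_left _ _).trans hr2
  have hr3 := (le_max_right _ _).trans hr2
  have hrR2 : R2 ≤ r := (le_max_left _ _).trans hr3
  have hr4 := (le_max_right _ _).trans hr3
  have hrR3 : R3 ≤ r := (le_max_left _ _).trans hr4
  have hr5 := (le_max_right _ _).trans hr4
  have hrR4 : R4 ≤ r := (le_max_left _ _).trans hr5
  have hrs : Real.exp (s / w) ≤ r := (le_max_right _ _).trans hr5
  have hr1 : 1 ≤ r := hK1.trans hrK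
  have hr0 : 0 < r := by linarith
  have hlog0 : 0 ≤ Real.log r := Real.log_nonneg hr1
  have hsw : s ≤ w * Real.log r := by
    have h1 : s / w ≤ Real.log r := by
      rw [← Real.log_exp (s / w)]
      exact Real.log_le_log (Real.exp_pos _) hrs
    rw [div_le_iff₀ hw0] at h1
    linarith
  -- the scale
  have hXd : (N0 : ℝ) ^ (M + 1) = (N0 : ℝ) ^ M * N0 := pow_succ _ _
  have hNM1 : 1 ≤ (N0 : ℝ) ^ M := one_le_pow₀ hN01
  have hX100 : 100 ≤ (N0 : ℝ) ^ (M + 1) := by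
    rw [hXd]
    nlinarith
  have hlogX : ((M : ℝ) + 1) * Real.log N0 ≤ w * Real.log r := by
    have h1 := Real.log_le_log (by positivity) hMr
    rw [Real.log_rpow hr0, Real.log_pow] at h1
    push_cast at h1
    exact h1
  have hlogN : 0 ≤ Real.log N0 := Real.log_nonneg hN01
  have hexpn : Real.exp (M * Real.log N0) = (N0 : ℝ) ^ M := by
    rw [mul_comm, Real.exp_mul, Real.exp_log hN00, Real.rpow_natCast]
  generalize hX : (N0 : ℝ) ^ (M + 1) = X at *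
  have hX0 : 0 < X := by linarith
  have hεp : 0 < 1 / X := by positivity
  have hε1 : 1 / X ≤ 1 / 100 := one_div_le_one_div_of_le (by norm_num) hX100
  have hπ3 : (3 : ℝ) < Real.pi := Real.pi_gt_three
  have hπ4 : Real.pi ≤ 4 := Real.pi_le_four
  obtain ⟨lam, hlam⟩ : ∃ lam : ℝ, lam = Real.pi / 4 * X := ⟨_, rfl⟩
  have hlam0 : 0 < lam := by rw [hlam]; positivity
  have hlam1 : 1 ≤ lam := by
    rw [hlam]
    nlinarith
  have hlamX : lam ≤ X := by
    rw [hlam]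
    nlinarith
  have hεc : Real.pi / (4 * lam) = 1 / X := by
    rw [hlam]
    have : Real.pi ≠ 0 := Real.pi_ne_zero
    field_simp
  -- the number of frequencies
  obtain ⟨J0, hJ0⟩ : ∃ J0 : ℕ, J0 = ⌈X / 4⌉₊ := ⟨_, rfl⟩
  have hJa : X / 4 ≤ J0 := by rw [hJ0]; exact Nat.le_ceil _
  have hJb : (J0 : ℝ) < X / 4 + 1 := by rw [hJ0]; exact Nat.ceil_lt_add_one (by positivity)
  have hJc : 1 / 4 ≤ J0 * (1 / X) := by
    rw [mul_one_div, le_div_iff₀ hX0]
    linarith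
  have hJd : J0 * (1 / X) ≤ 3 / 10 := by
    rw [mul_one_div, div_le_iff₀ hX0]
    linarith
  -- powers of `r`
  have hrw0 : 0 < r ^ w := Real.rpow_pos_of_pos hr0 _
  have hδr : r ^ (-κ) ≤ δ := by
    have h1 := hR1 r hrR1
    rw [Real.rpow_neg hr0.le, inv_le_comm₀ (Real.rpow_pos_of_pos hr0 _) hδ0]
    rwa [one_div] at h1
  have hrwκ : r ^ w ≤ r ^ κ := Real.rpow_le_rpow_of_exponent_le hr1 (by linarith)
  have hexpt : Real.exp t ≤ r ^ (1 - w) := by
    rw [Real.rpow_def_of_pos hr0]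
    exact Real.exp_le_exp.2 (by linarith)
  have hexpt' : Real.exp (-t) ≤ (r ^ w)⁻¹ := by
    rw [← Real.rpow_neg hr0.le, Real.rpow_def_of_pos hr0]
    exact Real.exp_le_exp.2 (by linarith)
  have hk1 : r ^ (-(1 / 4) : ℝ) ≤ 1 / X / 100 := by
    have h1 := hR3 r hrR3
    have h2 : r ^ (1 / 4 : ℝ) = r ^ (1 / 4 - 1 / 100 : ℝ) * r ^ (1 / 100 : ℝ) := by
      rw [← Real.rpow_add hr0]
      norm_num
    have h3 : X ≤ r ^ (1 / 100 : ℝ) := hMr.trans (Real.rpow_le_rpow_of_exponent_le hr1 hw1)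
    have h4 : X * 100 ≤ r ^ (1 / 4 : ℝ) := by
      rw [h2]
      calc X * 100 = 100 * X := by ring
        _ ≤ _ := mul_le_mul h1 h3 hX0.le (by positivity)
    have h5 : 1 / X / 100 = (X * 100)⁻¹ := by
      field_simp
    rw [h5, Real.rpow_neg hr0.le]
    exact inv_anti₀ (by positivity) h4
  have hk2 : 2 * r ^ (-(1 / 4) : ℝ) ≤ r ^ (-(1 / 5) : ℝ) := by
    have h1 := hR4 r hrR4
    have h2 : r ^ (-(1 / 5) : ℝ) = r ^ (1 / 20 : ℝ) * r ^ (-(1 / 4) : ℝ) := by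
      rw [← Real.rpow_add hr0]
      norm_num
    rw [h2]
    exact mul_le_mul_of_nonneg_right h1 (Real.rpow_nonneg hr0.le _)
  have hk3 : r ^ (-(1 / 2) : ℝ) ≤ r ^ (-(1 / 5) : ℝ) := Real.rpow_le_rpow_of_exponent_le hr1 (by norm_num)
  have hKC : 0 < K * C3 := by positivity
  have c8 : K * C3 * Real.exp (-t) ≤ δ := by
    have h1 := hR2 r hrR2
    rw [div_le_iff₀ hδ0] at h1
    calc K * C3 * Real.exp (-t) ≤ K * C3 * (r ^ w)⁻¹ := mul_le_mul_of_nonneg_left hexpt' hKC.le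
      _ ≤ δ := by
        rw [← div_eq_mul_inv, div_le_iff₀ hrw0]
        linarith
  have c9 : K * (C3 * (N0 : ℝ) ^ M) ≤ δ * lam := by
    rw [hlam, hXd]
    have h1 : K * C3 ≤ δ * (Real.pi / 4) * N0 := by nlinarith
    calc K * (C3 * (N0 : ℝ) ^ M) = K * C3 * (N0 : ℝ) ^ M := by ring
      _ ≤ δ * (Real.pi / 4) * N0 * (N0 : ℝ) ^ M := mul_le_mul_of_nonneg_right h1 (by positivity)
      _ = _ := by ring
  have c10 : K * C3 * Real.exp (-s) ≤ δ := by
    rw [le_div_iff₀ hKC] at hs1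
    linarith
  have c11 : K * (C3 * (N0 : ℝ) ^ M) * Real.exp t ≤ δ * r := by
    have h1 : K * C3 ≤ δ * N0 := by nlinarith
    calc K * (C3 * (N0 : ℝ) ^ M) * Real.exp t = K * C3 * ((N0 : ℝ) ^ M * Real.exp t) := by ring
      _ ≤ δ * N0 * ((N0 : ℝ) ^ M * Real.exp t) := mul_le_mul_of_nonneg_right h1 (by positivity)
      _ = δ * (X * Real.exp t) := by rw [hXd]; ring
      _ ≤ δ * (r ^ w * r ^ (1 - w)) := mul_le_mul_of_nonneg_left (mul_le_mul hMr hexpt (Real.exp_pos _).le hrw0.le) hδ0.le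
      _ = δ * r := by
        rw [← Real.rpow_add hr0]
        have : w + (1 - w) = 1 := by ring
        rw [this, Real.rpow_one]
  have c13 : t ≤ Real.log (r / lam) := by
    rw [Real.log_div hr0.ne' hlam0.ne']
    have h1 : Real.log lam ≤ w * Real.log r := by
      rw [← Real.log_rpow hr0]
      exact Real.log_le_log hlam0 (hlamX.trans hMr)
    linarith
  have hcw : Real.exp (-((M : ℝ) * Real.log N0 + s)) / 4 ≤ 1 / X / 100 := by
    have h1 : Real.exp (-((M : ℝ) * Real.log N0 + s)) = ((N0 : ℝ) ^ M)⁻¹ * Real.exp (-s) := by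
      rw [neg_add, Real.exp_add, Real.exp_neg, hexpn]
    have h2 : ((N0 : ℝ) ^ M)⁻¹ * Real.exp (-s) ≤ ((N0 : ℝ) ^ M)⁻¹ * (1 / (25 * N0)) := mul_le_mul_of_nonneg_left hs2 (by positivity)
    have h3 : ((N0 : ℝ) ^ M)⁻¹ * (1 / (25 * N0)) = 1 / X / 25 := by
      rw [hXd]
      field_simp
    rw [h1]
    linarith
  have H := hQ r δ C3 (C3 * (N0 : ℝ) ^ M) C3 (C3 * (N0 : ℝ) ^ M) (M * Real.log N0) s lam (δ ^ 2 / 128) t J0 Ψ Ψa Ψn Ψl Ψ' Ψa' Ψn' Ψl'
    (IR.HMG_D Ψ' (1 / X) (r ^ (-(1 / 5) : ℝ)) (M * Real.log N0)) φ hrK hδr hδ1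
  rw [hεc] at H
  have H2 := H (by positivity) hs0 (by nlinarith) hlam1 ((hlamX.trans hMr).trans hrwκ) (by positivity) (by linarith) hJc (by linarith)
    c8 c9 c10 c11 (hsw.trans ht1) c13 hSF hΨ hn hl hSF' hΨ' hn' hl'
    (IR.HMG_open Ψ' hSF'.i0.1 _ _ _).measurableSet (IR.HMG_inv Γ Ψ' hSF'.i0.2 _ _ _) ?_ ?_ hφ hnφ
  · have i1 := MS2_int hFL0 hGFD hGBD Γ F hΓ hF (pc β α) hTB r φ hφ Ψ hSF.i0 hΨ t
    have i2 := MS2_int hFL0 hGFD hGBD Γ F hΓ hF (pc β α) hTB r φ hφ Ψ' hSF'.i0 hΨ' t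
    have e1 : EX F β α r φ (fun g => Ψ (g * aM t) + Ψ' (g * aM t)) =
        r * iR F (fun g => Ψ (g * aM t) * ‖pf β α r φ g‖ ^ 2) + r * iR F (fun g => Ψ' (g * aM t) * ‖pf β α r φ g‖ ^ 2) := by
      rw [← mul_add]
      show r * iR F (fun g => (Ψ (g * aM t) + Ψ' (g * aM t)) * ‖pf β α r φ g‖ ^ 2) = _
      congr 1
      simp only [iR, pf]
      rw [← integral_add i1 i2]
      refine integral_congr_ae (Eventually.of_forall fun g => ?_)
      simp only []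
      ring
    rw [e1]
    linarith
  · intro j g k z hj hk hz1 hz2 hkz1 hkz2 hne
    obtain ⟨x, τ, o, e, he, hx, hτ, ho, hkk⟩ := hLCK (1 / X) (j * (1 / X)) k z hεp hε1 (hk.trans hk1) (hz1.trans hcw) hz2 hkz1 hkz2
    refine ⟨x, τ, o, e, he, hx, hτ, ho.trans ?_, ?_⟩
    · linarith
    · have h1 : e * (g * nM (j * (1 / X))) * nM x * aM τ * lM o * aM (-(M * Real.log N0)) = g * k * aM (-(M * Real.log N0)) := by
        rw [hkk, hnM, IR.HMG_comm e _ he]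
        have h2 : nM (↑j * (1 / X)) * e = e * nM (↑j * (1 / X)) := (IR.HMG_comm e _ he).symm
        simp only [mul_assoc]
        rw [← mul_assoc (nM (↑j * (1 / X))) e, h2]
        simp only [mul_assoc]
      rw [h1]
      exact hne
  · intro l g g' J a hl0' hl1 hJ
    refine hLFC l g g' J a hl0' (hl1.trans hk3) ?_
    intro j hj
    obtain ⟨h1, u, hu, x, τ, o, e, he, hx, hτ, ho, hne⟩ := hJ j hj
    refine ⟨?_, u, hu, x, τ, o, e, he, hx, hτ, ho, ?_⟩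
    · rw [abs_mul, abs_of_pos hεp]
      have h2 : |(j : ℝ)| ≤ J0 := by exact_mod_cast h1
      exact (mul_le_mul_of_nonneg_right h2 hεp.le).trans hJd
    · show Ψ' (e * g * lM (l * u) * nM (j * (1 / X) + x) * aM τ * lM o * aM (-(M * Real.log N0))) ≠ 0
      have h2 : e * (g * lM (l * u) * nM (j * (1 / X))) * nM x * aM τ * lM o * aM (-(M * Real.log N0)) =
          e * g * lM (l * u) * nM (j * (1 / X) + x) * aM τ * lM o * aM (-(M * Real.log N0)) := by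
        rw [hnM]
        simp only [mul_assoc]
      rw [← h2]
      exact hne

end

end Pool.Agent.T1
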